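import Pool.Agent.H612.GalHard
import Pool.Agent.H612.PG.Main

/-!
# The art gallery problem for semialgebraic galleries

Instances are a number `k` of guards in unary and a quantifier-free formula `φ` which defines the
gallery `{x ∈ ℝ^d : φ(x)}`; the dimension `d` is either equal to `2` or part of the input (in
unary).

* In the plane, the problem belongs to `∃ℝ`.
* If the dimension is part of the input, then the problem is `∃∀ℝ`-complete, and it remains so for
  two guards. Hence it belongs to `∃ℝ` if and only if `∃∀ℝ = ∃ℝ`.

## The plane

The certificate for guards `g₁, …, g_k` consists of the following data, all defined by polynomial
identities of polynomial degree: a generic linear change of coordinates, the factors of the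
polynomials of `φ`, the lines through the guards in which some of the curves changes its position
relative to the pencil of lines through the guard, the critical abscissas of the arrangement of all
these curves and lines (a Bezout identity shows that there are no others), the critical ordinates
over the sample abscissas, and for every sample point a guard and all critical parameters on the
segment between them. Soundness: whether a point is seen from a guard does not change as long as
the point does not meet any of the curves and lines; this is a purely one-dimensional argument
along vertical lines and along the branches of the curves.

## Unbounded dimension

Let `∃ u ∀ w, φ(u, w)` be a sentence. The gallery consists of points `(u, w, s, z)`. A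
room below the space `s = z = 0, w = 0` and an antenna starting at the point
`q₂ = (0, 0, 0, 1)` force one guard of the form `(u, 0, 0, z)`, `-1 ≤ z ≤ 0`, and one guard on the
antenna. The second guard can see everything except for the first room and the points
`(0, w, 1, 0)`; hence the first guard has to be of the form `(u, 0, 0, 0)` and it has to see all
points `(0, w, 1, 0)`, through the wall `s = 1/2` in which exactly the points `(u/2, w/2)` with
`φ(u/2, w/2)` are transparent.
-/

namespace Pool.Agent.Results.MP_42f8a6_lc.GalleryAnswer

open Pool.Agent.NPC Pool.Agent.NPC.ER Pool.Agent.NPC.H612

theorem result :
    -- the plane
    InER (lang PlaneGallery) ∧
    -- the dimension is part of the input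
    EARComplete (lang ArtGallery) ∧ EARComplete (lang TwoGuards) ∧
    (InER (lang ArtGallery) ↔ ∀ L, InEAR L → InER L) := by
  refine ⟨planeGallery_inER, artGallery_earComplete, twoGuards_earComplete, fun h L hL => ?_,
    fun h => h _ artGallery_inEAR⟩
  exact h.of_reduces (artGallery_hard L hL)

end Pool.Agent.Results.MP_42f8a6_lc.GalleryAnswer
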